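import Pool.Agent.Lib.MP_6947cd_al.LR.FINC

/-!
# Chollet's inequality if one of the matrices, or both, are of small rank

`per (A ∘ B) ≤ per A * per B` for all complex positive semidefinite `n × n` matrices `A`, `B` with
`rank A + rank B ≤ n / 2`, and for all with `rank A ≤ n / 7` (`B` arbitrary) or `rank B ≤ n / 7`
(`A` arbitrary), for every `n`.  The ranks may be replaced by `∑ i, 1 / R_i`, where
`R_i = ∑ j, |a_ij|² / (a_ii a_jj)`.
-/

set_option autoImplicit false
open scoped Matrix ComplexOrder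

namespace Pool.Agent.Results.MP_6947cd_al.CholletLowRank

/-- Chollet's inequality if `a + b ≤ n / 2` or `a ≤ n / 7` or `b ≤ n / 7`, where `a` is the rank of `A` or
the sum of the reciprocals of the normalised row sums of squares of `A`, and the same for `b` and `B`. -/
theorem result :
    ∀ n : ℕ, ∀ A B : Matrix (Fin n) (Fin n) ℂ, A.PosSemidef → B.PosSemidef → ∀ a b : ℝ,
      (a = A.rank ∨ a = ∑ i, (∑ j, ‖A i j‖ ^ 2 / ((A i i).re * (A j j).re))⁻¹) →
      (b = B.rank ∨ b = ∑ i, (∑ j, ‖B i j‖ ^ 2 / ((B i i).re * (B j j).re))⁻¹) →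
      (2 * (a + b) ≤ n ∨ 7 * a ≤ n ∨ 7 * b ≤ n) →
      (A ⊙ B).permanent ≤ A.permanent * B.permanent := by
  intro n A B hA hB a b ha hb h
  exact CholLR.low_rank_pair n A B hA hB a b ha hb h

end Pool.Agent.Results.MP_6947cd_al.CholletLowRank
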