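import Pool.Agent.Lib.MP_6947cd_al.Reduce

set_option autoImplicit false
open scoped Matrix ComplexOrder

namespace Pool.Agent.Results.MP_6947cd_al.CholletOrderSix

/-- Chollet's inequality holds for all complex positive semidefinite matrices of order at
most six. -/
theorem result :
    ∀ n : ℕ, n ≤ 6 → ∀ A B : Matrix (Fin n) (Fin n) ℂ,
      A.PosSemidef → B.PosSemidef →
        (A ⊙ B).permanent ≤ A.permanent * B.permanent := by
  intro n hn A B hA hB
  have h := Pool.Agent.Lib.MP_6947cd_al.chollet_reduction (κ := Fin n) 1 (by norm_num)
    (fun A hA => by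
      simpa using Pool.Agent.Lib.MP_6947cd_al.chollet_conj n hn A hA) A B hA hB
  simpa using h

end Pool.Agent.Results.MP_6947cd_al.CholletOrderSix
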