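import Pool.Agent.Lib.MP_6947cd_al.RankTwoMain

set_option autoImplicit false
open scoped Matrix ComplexOrder

namespace Pool.Agent.Results.MP_6947cd_al.CholletRankTwo

/-- Chollet's inequality holds for all complex positive semidefinite matrices of rank at most
two, of every order. -/
theorem result :
    ∀ n : ℕ, ∀ A B : Matrix (Fin n) (Fin n) ℂ,
      A.PosSemidef → B.PosSemidef → A.rank ≤ 2 → B.rank ≤ 2 →
        (A ⊙ B).permanent ≤ A.permanent * B.permanent := by
  intro n A B hA hB hrA hrB
  exact Pool.Agent.Lib.MP_6947cd_al.chollet_of_conj A B hA hB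
    (Pool.Agent.Lib.MP_6947cd_al.rank_two_conj n A hA hrA)
    (Pool.Agent.Lib.MP_6947cd_al.rank_two_conj n B hB hrB)

end Pool.Agent.Results.MP_6947cd_al.CholletRankTwo
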